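import Mathlib
import Pool.Agent.H49.RRDefs
import Pool.Agent.H49.PowerForm
import Pool.Agent.H49.LeRoyContra

open Polynomial Finset Filter Topology

namespace Pool.Agent.Results.MP_3f3e0f_an.PreserverForm

open Pool.Agent.H49.RR Pool.Agent.H49.PowerForm Pool.Agent.H49.LeRoy

lemma RealRooted.C_mul {p : ℝ[X]} {c : ℝ} (hc : c ≠ 0) (h : RealRooted (C c * p)) :
    RealRooted p := by
  rcases h with h | h
  · left
    rcases mul_eq_zero.1 h with h1 | h1
    · exact absurd (C_eq_zero.1 h1) hc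
    · exact h1
  · right
    intro z hz
    refine h z ?_
    rw [map_mul, hz, mul_zero]

lemma exponent_not_between {F : ℝ → ℝ} (hF : Preserves F) {c r : ℝ} (hc : 0 < c)
    (h : ∀ t, 0 ≤ t → F t = c * t ^ r) (h1 : 1 < r) (h2 : r < 2) : False := by
  refine no_realRooted h1 h2 (fun n hn => ?_)
  have hn' : (0 : ℝ) < n := by exact_mod_cast hn
  have h3 := hF _ (pplus_testPoly (c := 1) (ρ := 1 / (n : ℝ)) one_pos (by positivity) n)
  refine RealRooted.C_mul (c := c) hc.ne' ?_
  have e : C c * appr r n = entrywise F (testPoly 1 (1 / (n : ℝ)) n) := by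
    ext k
    rw [coeff_C_mul]
    unfold appr
    rw [coeff_entrywise, coeff_entrywise]
    split_ifs with hk
    · rw [h _ (by rw [coeff_testPoly]; positivity)]
    · rw [mul_zero]
  rw [e]
  exact h3

/-- **Main theorem.**  A function `F : [0,∞) → [0,∞)` with `F 0 = 0` preserving real-rootedness
vanishes identically or is of the form `c t ^ r` with `c > 0` and `r = 1` or `r ≥ 2`. -/
theorem result (F : ℝ → ℝ) (hF0 : F 0 = 0) (hFnn : ∀ t, 0 ≤ t → 0 ≤ F t) (hF : Preserves F) :
    (∀ t, 0 ≤ t → F t = 0) ∨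
      ∃ c r : ℝ, 0 < c ∧ (r = 1 ∨ 2 ≤ r) ∧ ∀ t, 0 ≤ t → F t = c * t ^ r := by
  rcases power_form F hF0 hFnn hF with h | ⟨c, r, hc, hr, h⟩
  · exact Or.inl h
  · refine Or.inr ⟨c, r, hc, ?_, h⟩
    rcases eq_or_lt_of_le hr with h1 | h1
    · exact Or.inl h1.symm
    · rcases lt_or_ge r 2 with h2 | h2
      · exact (exponent_not_between hF hc h h1 h2).elim
      · exact Or.inr h2

end Pool.Agent.Results.MP_3f3e0f_an.PreserverForm
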