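import Mathlib
import Pool.Agent.H49.RRDefs
import Pool.Agent.H49.PowerForm
import Pool.Agent.H49.LeRoyContra
import Pool.Agent.H62LR.Mult
import Pool.Agent.H62LR.Small
import Pool.Agent.H62LR.PowerFormB

open Polynomial Finset

namespace Pool.Agent.Results.MP_3f3e0f_an.GammaClass

open Pool.Agent.H49.RR Pool.Agent.H49.PowerForm Pool.Agent.H49.LeRoy Pool.Agent.H62LR
  Pool.Agent.H62LR.PowerFormB

/-- `c ρ^k binom(n,k) ∏_{(α,e) ∈ L} Γ(k+1+α)^{-e} ∏_{(β,f) ∈ M} Γ(n-k+1+β)^{-f}` -/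
noncomputable def gcoef (n : ℕ) (c ρ : ℝ) (L M : List (ℝ × ℝ)) (k : ℕ) : ℝ :=
  c * ρ ^ k * (n.choose k : ℝ) *
    (L.map (fun q => Real.Gamma ((k : ℝ) + 1 + q.1) ^ (-q.2))).prod *
    (M.map (fun q => Real.Gamma ((n : ℝ) - k + 1 + q.1) ^ (-q.2))).prod

/-- The polynomials `∑_{k ≤ n} gcoef n c ρ L M k x^k` with `c, ρ > 0` and finitely many pairs
`(α, e)` of real numbers with `α ≥ 0`, `e ≥ 1`. -/
def GammaType (p : ℝ[X]) : Prop :=
  ∃ (c ρ : ℝ) (L M : List (ℝ × ℝ)), 0 < c ∧ 0 < ρ ∧ (∀ q ∈ L, 0 ≤ q.1 ∧ 1 ≤ q.2) ∧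
    (∀ q ∈ M, 0 ≤ q.1 ∧ 1 ≤ q.2) ∧
    ∀ k ≤ p.natDegree, p.coeff k = gcoef p.natDegree c ρ L M k

/-- The class of test polynomials: all `p ∈ 𝒫⁺` of degree at most `5` and all polynomials of Gamma
type (in particular all `c (1 + ρ x)^n`). -/
def InClass (p : ℝ[X]) : Prop := (PPlus p ∧ p.natDegree ≤ 5) ∨ GammaType p

lemma ms_listL (n : ℕ) (L : List (ℝ × ℝ)) (hL : ∀ q ∈ L, 0 ≤ q.1 ∧ 1 ≤ q.2) :
    MS n (fun k => (L.map (fun q => Real.Gamma ((k : ℝ) + 1 + q.1) ^ (-q.2))).prod) := by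
  induction L with
  | nil => simpa using MS.one n
  | cons q L ih =>
    have h1 := ms_gamma n (hL q List.mem_cons_self).1 (hL q List.mem_cons_self).2
    have h2 := ih (fun q' hq' => hL q' (List.mem_cons_of_mem _ hq'))
    refine (h1.mul h2).congr (fun k _ => ?_)
    rw [List.map_cons, List.prod_cons]

lemma ms_listM (n : ℕ) (M : List (ℝ × ℝ)) (hM : ∀ q ∈ M, 0 ≤ q.1 ∧ 1 ≤ q.2) :
    MS n (fun k => (M.map (fun q => Real.Gamma ((n : ℝ) - k + 1 + q.1) ^ (-q.2))).prod) := by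
  induction M with
  | nil => simpa using MS.one n
  | cons q M ih =>
    have h1 := ms_gamma' n (hM q List.mem_cons_self).1 (hM q List.mem_cons_self).2
    have h2 := ih (fun q' hq' => hM q' (List.mem_cons_of_mem _ hq'))
    refine (h1.mul h2).congr (fun k _ => ?_)
    rw [List.map_cons, List.prod_cons]

lemma rpow_prodL {k : ℕ} (L : List (ℝ × ℝ)) (hL : ∀ q ∈ L, 0 ≤ q.1 ∧ 1 ≤ q.2) (r : ℝ) :
    0 ≤ (L.map (fun q => Real.Gamma ((k : ℝ) + 1 + q.1) ^ (-q.2))).prod ∧
    (L.map (fun q => Real.Gamma ((k : ℝ) + 1 + q.1) ^ (-q.2))).prod ^ r =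
      ((L.map (fun q => (q.1, r * q.2))).map
        (fun q => Real.Gamma ((k : ℝ) + 1 + q.1) ^ (-q.2))).prod := by
  induction L with
  | nil => simp
  | cons q L ih =>
    obtain ⟨h1, h2⟩ := ih (fun q' hq' => hL q' (List.mem_cons_of_mem _ hq'))
    have h3 : 0 ≤ q.1 := (hL q List.mem_cons_self).1
    have hΓ : 0 < Real.Gamma ((k : ℝ) + 1 + q.1) := Real.Gamma_pos_of_pos (by positivity)
    have hp := Real.rpow_nonneg hΓ.le (-q.2)
    simp only [List.map_cons, List.prod_cons]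
    refine ⟨mul_nonneg hp h1, ?_⟩
    rw [Real.mul_rpow hp h1, h2, ← Real.rpow_mul hΓ.le]
    congr 2
    ring

lemma rpow_prodM {n k : ℕ} (hk : k ≤ n) (M : List (ℝ × ℝ)) (hM : ∀ q ∈ M, 0 ≤ q.1 ∧ 1 ≤ q.2)
    (r : ℝ) :
    0 ≤ (M.map (fun q => Real.Gamma ((n : ℝ) - k + 1 + q.1) ^ (-q.2))).prod ∧
    (M.map (fun q => Real.Gamma ((n : ℝ) - k + 1 + q.1) ^ (-q.2))).prod ^ r =
      ((M.map (fun q => (q.1, r * q.2))).map
        (fun q => Real.Gamma ((n : ℝ) - k + 1 + q.1) ^ (-q.2))).prod := by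
  have hk' : (k : ℝ) ≤ n := by exact_mod_cast hk
  induction M with
  | nil => simp
  | cons q M ih =>
    obtain ⟨h1, h2⟩ := ih (fun q' hq' => hM q' (List.mem_cons_of_mem _ hq'))
    have h3 : 0 ≤ q.1 := (hM q List.mem_cons_self).1
    have hΓ : 0 < Real.Gamma ((n : ℝ) - k + 1 + q.1) := Real.Gamma_pos_of_pos (by linarith)
    have hp := Real.rpow_nonneg hΓ.le (-q.2)
    simp only [List.map_cons, List.prod_cons]
    refine ⟨mul_nonneg hp h1, ?_⟩
    rw [Real.mul_rpow hp h1, h2, ← Real.rpow_mul hΓ.le]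
    congr 2
    ring

/-- the polynomials of Gamma type belong to `𝒫⁺` -/
lemma GammaType.pplus {p : ℝ[X]} (hp : GammaType p) : PPlus p := by
  obtain ⟨c, ρ, L, M, hc, hρ, hL, hM, hcoef⟩ := hp
  set n := p.natDegree with hn
  have a2 := ms_listL n _ hL
  have a3 := ms_listM n _ hM
  have a4 : PF n (fun k => ρ ^ k * _) := PF.scale ((a2.mul a3).const_mul hc) hρ
  have a5 : PF n p.coeff := by
    refine a4.congr (fun k hk => ?_)
    rw [hcoef k hk]
    unfold gcoef
    ring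
  have a6 := a5.pplus
  rw [hn, poly_coeff] at a6
  exact a6

lemma InClass.pplus {p : ℝ[X]} (hp : InClass p) : PPlus p := by
  rcases hp with h | h
  · exact h.1
  · exact h.pplus

/-- coefficientwise real powers `r ≥ 2` (and `r = 1`) of the class are real-rooted -/
lemma pf_rpow_class {p : ℝ[X]} (hp : InClass p) {r : ℝ} (hr : r = 1 ∨ 2 ≤ r) :
    PF p.natDegree (fun k => p.coeff k ^ r) := by
  have hpf := pf_of_pplus hp.pplus
  rcases hr with h1 | h2
  · subst h1
    exact hpf.congr (fun k _ => (Real.rpow_one _).symm)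
  rcases hp with ⟨_, h5⟩ | ⟨c, ρ, L, M, hc, hρ, hL, hM, hcoef⟩
  · exact pf_rpow_small h5 hpf h2
  · set n := p.natDegree with hn
    have a1 : MS n (fun k => (n.choose k : ℝ) ^ (r - 1)) := ms_choose n (by linarith)
    have hscale : ∀ q ∈ L.map (fun q => (q.1, r * q.2)), 0 ≤ q.1 ∧ 1 ≤ q.2 := by
      intro q hq
      obtain ⟨q', hq', rfl⟩ := List.mem_map.1 hq
      have := hL q' hq'
      exact ⟨this.1, by simp only; nlinarith [this.2]⟩
    have hscale' : ∀ q ∈ M.map (fun q => (q.1, r * q.2)), 0 ≤ q.1 ∧ 1 ≤ q.2 := by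
      intro q hq
      obtain ⟨q', hq', rfl⟩ := List.mem_map.1 hq
      have := hM q' hq'
      exact ⟨this.1, by simp only; nlinarith [this.2]⟩
    have a2 := ms_listL n _ hscale
    have a3 := ms_listM n _ hscale'
    have a4 : PF n (fun k => (ρ ^ r) ^ k * _) :=
      PF.scale (((a1.mul a2).mul a3).const_mul (Real.rpow_pos_of_pos hc r))
        (Real.rpow_pos_of_pos hρ r)
    refine a4.congr (fun k hk => ?_)
    obtain ⟨b1, b2⟩ := rpow_prodL (k := k) L hL r
    obtain ⟨b3, b4⟩ := rpow_prodM hk M hM r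
    have hch := choose_pos' hk
    rw [hcoef k hk]
    unfold gcoef
    rw [Real.mul_rpow (by positivity) b3, Real.mul_rpow (by positivity) b1,
      Real.mul_rpow (by positivity) hch.le, Real.mul_rpow hc.le (by positivity), b2, b4]
    have e1 : (ρ ^ k : ℝ) ^ r = (ρ ^ r) ^ k := by
      rw [← Real.rpow_natCast, ← Real.rpow_mul hρ.le, ← Real.rpow_natCast, ← Real.rpow_mul hρ.le,
        mul_comm]
    have e2 : (n.choose k : ℝ) ^ r = (n.choose k : ℝ) * (n.choose k : ℝ) ^ (r - 1) := by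
      rw [← Real.rpow_one_add' hch.le (by linarith)]
      congr 1
      ring
    rw [e1, e2]
    ring

lemma inClass_testPoly {c ρ : ℝ} (hc : 0 < c) (hρ : 0 < ρ) (n : ℕ) : InClass (testPoly c ρ n) := by
  refine Or.inr ⟨c, ρ, [], [], hc, hρ, by simp, by simp, fun k _ => ?_⟩
  rw [natDegree_testPoly hc hρ, coeff_testPoly]
  unfold gcoef
  simp
  ring

lemma RealRooted.C_mul {p : ℝ[X]} {c : ℝ} (hc : c ≠ 0) (h : RealRooted (C c * p)) :
    RealRooted p := by
  rcases h with h | h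
  · left
    rcases mul_eq_zero.1 h with h1 | h1
    · exact absurd (C_eq_zero.1 h1) hc
    · exact h1
  · right
    intro z hz
    refine h z ?_
    rw [map_mul, hz, mul_zero]

lemma exponent_not_between {F : ℝ → ℝ} (hF : PresB F) {c r : ℝ} (hc : 0 < c)
    (h : ∀ t, 0 ≤ t → F t = c * t ^ r) (h1 : 1 < r) (h2 : r < 2) : False := by
  refine no_realRooted h1 h2 (fun n hn => ?_)
  have hn' : (0 : ℝ) < n := by exact_mod_cast hn
  have h3 := hF.1 1 (1 / (n : ℝ)) n one_pos (by positivity)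
  refine RealRooted.C_mul (c := c) hc.ne' ?_
  have e : C c * appr r n = entrywise F (testPoly 1 (1 / (n : ℝ)) n) := by
    ext k
    rw [coeff_C_mul]
    unfold appr
    rw [coeff_entrywise, coeff_entrywise]
    split_ifs with hk
    · rw [h _ (by rw [coeff_testPoly]; positivity)]
    · rw [mul_zero]
  rw [e]
  exact h3

/-- **Main theorem.**  The question has a complete answer for the test class `InClass`: a function
`F : [0,∞) → [0,∞)` with `F 0 = 0` maps every polynomial of the class to a real-rooted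
polynomial iff `F = 0` or `F = c t^r` with `c > 0` and `r = 1` or `r ≥ 2` real. -/
theorem result (F : ℝ → ℝ) (hF0 : F 0 = 0) (hFnn : ∀ t, 0 ≤ t → 0 ≤ F t) :
    (∀ p : ℝ[X], InClass p → RealRooted (entrywise F p)) ↔
      ((∀ t, 0 ≤ t → F t = 0) ∨
        ∃ c r : ℝ, 0 < c ∧ (r = 1 ∨ 2 ≤ r) ∧ ∀ t, 0 ≤ t → F t = c * t ^ r) := by
  constructor
  · intro hF
    have hB : PresB F := ⟨fun c ρ n hc hρ => hF _ (inClass_testPoly hc hρ n),
      fun p hp h2 => hF _ (Or.inl ⟨hp, by omega⟩)⟩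
    rcases PowerFormB.power_form F hF0 hFnn hB with h | ⟨c, r, hc, hr, h⟩
    · exact Or.inl h
    · refine Or.inr ⟨c, r, hc, ?_, h⟩
      rcases eq_or_lt_of_le hr with h1 | h1
      · exact Or.inl h1.symm
      · rcases lt_or_ge r 2 with h2 | h2
        · exact (exponent_not_between hB hc h h1 h2).elim
        · exact Or.inr h2
  · rintro (h | ⟨c, r, hc, hr, h⟩) p hp
    · left
      ext k
      rw [coeff_entrywise, coeff_zero]
      split_ifs with hk
      · exact h _ (hp.pplus.1 k hk).le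
      · rfl
    · have h1 := (pf_rpow_class hp hr).const_mul hc
      have h2 := h1.realRooted
      rw [entrywise_eq]
      have e : poly p.natDegree (fun k => F (p.coeff k)) =
          poly p.natDegree (fun k => c * p.coeff k ^ r) := by
        ext k
        rw [coeff_poly, coeff_poly]
        split_ifs with hk
        · exact h _ (hp.pplus.1 k hk).le
        · rfl
      rw [e]
      exact h2

end Pool.Agent.Results.MP_3f3e0f_an.GammaClass
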