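import Mathlib
import Pool.Agent.RL51.Final

namespace Pool.Agent.Results.MP_3f3e0f_an.LargePowers

open Pool.Agent.H49.RR

/-- **Main theorem.**  For every real `r ≥ 300` and every `c > 0` the function `F t = c t ^ r`
preserves real-rootedness: `∑ c (a_k)^r x^k` is real-rooted for every `∑ a_k x^k` in `𝒫⁺`. -/
theorem result (r : ℝ) (hr : 300 ≤ r) (c : ℝ) (hc : 0 < c) :
    Preserves (fun t => c * t ^ r) :=
  Pool.Agent.RL51.preserves_rpow_large hr hc

end Pool.Agent.Results.MP_3f3e0f_an.LargePowers
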