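import Mathlib
import Pool.Agent.RFS.Main
import Pool.Agent.RFS.Closure
import Pool.Agent.RL1.Coup

open Polynomial Finset

namespace Pool.Agent.Results.MP_3f3e0f_an.SectionPowers

open Pool.Agent.H49.RR Pool.Agent.H62LR Pool.Agent.RFS

/-- even section `∑_{2k ≤ n} a_{2k} x^k` of `p = ∑_{k ≤ n} a_k x^k`, `n` the degree of `p` -/
noncomputable def evenSection (p : ℝ[X]) : ℝ[X] :=
  ∑ k ∈ range (p.natDegree / 2 + 1), monomial k (p.coeff (2 * k))

/-- odd section `∑_{2k+1 ≤ n} a_{2k+1} x^k` of `p = ∑_{k ≤ n} a_k x^k`, `n` the degree of `p` -/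
noncomputable def oddSection (p : ℝ[X]) : ℝ[X] :=
  ∑ k ∈ range ((p.natDegree + 1) / 2), monomial k (p.coeff (2 * k + 1))

/-- the exponents of the theorem -/
def GoodExponent (r : ℝ) : Prop :=
  r = 1 ∨ (7 / 4 ≤ r ∧ r ≤ 9 / 4) ∨ (11 / 4 ≤ r ∧ r ≤ 13 / 4) ∨ 7 / 2 ≤ r

lemma evenSection_eq (p : ℝ[X]) :
    evenSection p = poly (p.natDegree / 2) (fun k => p.coeff (2 * k)) := rfl

lemma oddSection_eq (p : ℝ[X]) (h : 1 ≤ p.natDegree) :
    oddSection p = poly ((p.natDegree - 1) / 2) (fun k => p.coeff (2 * k + 1)) := by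
  unfold oddSection poly
  rw [show (p.natDegree + 1) / 2 = (p.natDegree - 1) / 2 + 1 by omega]

lemma entrywise_poly {F : ℝ → ℝ} {n : ℕ} {a : ℕ → ℝ} (h : a n ≠ 0) :
    entrywise F (poly n a) = poly n (fun k => F (a k)) := by
  ext k
  rw [entrywise_eq, natDegree_poly h]
  simp only [coeff_poly]
  split_ifs with hk
  · rfl
  · rfl

/-- **Main theorem.**  For every real exponent `r` in
`{1} ∪ [7/4, 9/4] ∪ [11/4, 13/4] ∪ [7/2, ∞)` the map `F t = c t ^ r` sends the even and the odd
section of every real-rooted polynomial with positive coefficients to a real-rooted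
polynomial. -/
theorem result (r : ℝ) (hr : GoodExponent r) (c : ℝ) (hc : 0 < c) (p : ℝ[X]) (hp : PPlus p) :
    RealRooted (entrywise (fun t => c * t ^ r) (evenSection p)) ∧
      RealRooted (entrywise (fun t => c * t ^ r) (oddSection p)) := by
  have hpf := pf_of_pplus hp
  have h := sections_pf sc (fun w hw γ π hγ => RL1.oneReplica w hw γ univ π hγ) hpf hr
  have hr0 : r ≠ 0 := by
    rcases hr with h | h | h | h <;> linarith [h]
  constructor
  · have h2 : p.coeff (2 * (p.natDegree / 2)) ≠ 0 := (hpf.1 _ (by omega)).ne'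
    rw [evenSection_eq, entrywise_poly (a := fun k => p.coeff (2 * k)) h2]
    exact (h.1.const_mul hc).realRooted
  · rcases Nat.eq_zero_or_pos p.natDegree with h0 | h1
    · left
      unfold oddSection
      rw [h0]
      simp only [zero_add, Nat.reduceDiv, range_zero, sum_empty]
      unfold entrywise
      simp [Real.zero_rpow hr0]
    · have h2 : p.coeff (2 * ((p.natDegree - 1) / 2) + 1) ≠ 0 := (hpf.1 _ (by omega)).ne'
      rw [oddSection_eq p h1, entrywise_poly (a := fun k => p.coeff (2 * k + 1)) h2]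
      exact ((h.2 h1).const_mul hc).realRooted

end Pool.Agent.Results.MP_3f3e0f_an.SectionPowers
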